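import Mathlib.RingTheory.FiniteType
import Mathlib.RingTheory.Ideal.MinimalPrime.Basic
import Mathlib.RingTheory.Polynomial.Basic
import Mathlib.RingTheory.IntegralClosure.IntegralRestrict
import Mathlib.Algebra.CharP.Frobenius
import Mathlib.FieldTheory.Finite.Basic
import Mathlib.Algebra.MvPolynomial.CommRing
import Mathlib.Tactic

/-!
MP_30687b_ag: a `p`-stable `p`-family without property (S) in a strongly `F`-regular ring.

In `𝔽_p[x, y]` take the constant family `𝔟_e = I`, where `I` is the kernel of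
`𝔽_p[x, y] → 𝔽_p[t]`, `x ↦ t²`, `y ↦ t³` (the ideal of the cuspidal curve). It is `p`-stable
because `I` is radical. A surjective Cartier map which maps `I` to `I` would give a splitting of a
power of the Frobenius of `𝔽_p[t², t³]`, and this splitting would send `t^q` to `t`.
-/

set_option autoImplicit false

namespace Pool.Agent.Results.MP_30687b_ag.ConstantCuspFamily

open MvPolynomial Filter

/-- `φ` is an element of `Hom_R(F^d_* R, R)`: an additive map with `φ (r^(p^d) s) = r φ(s)`. -/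
def IsCartierMap (p d : ℕ) {R : Type} [CommRing R] (φ : R →+ R) : Prop :=
  ∀ r s : R, φ (r ^ (p ^ d) * s) = r * φ s

/-- `R` is strongly `F`-regular: for every `c` outside the minimal primes there are `e ≥ 1` and
`ψ ∈ Hom_R(F^e_* R, R)` with `ψ(F^e_* c) = 1`. -/
def StronglyFRegular (p : ℕ) (R : Type) [CommRing R] : Prop :=
  ∀ c : R, (∀ P ∈ minimalPrimes R, c ∉ P) →
    ∃ e : ℕ, 1 ≤ e ∧ ∃ ψ : R →+ R, IsCartierMap p e ψ ∧ ψ c = 1

/-- `R` is `F`-finite: the Frobenius `R → R`, `r ↦ r^p`, is finite. -/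
def FFinite (p : ℕ) [Fact p.Prime] (R : Type) [CommRing R] [CharP R p] : Prop :=
  (frobenius R p).Finite

/-- `𝔟_•` is a `p`-family: `𝔟_e^{[p]} ⊆ 𝔟_{e+1}` for all `e`. -/
def IsPFamily (p : ℕ) {R : Type} [CommRing R] (b : ℕ → Ideal R) : Prop :=
  ∀ e, Ideal.span ((fun g => g ^ p) '' (b e : Set R)) ≤ b (e + 1)

/-- The `p`-stabilization: all `r` with `r^(p^f) ∈ 𝔟_{e+f}` for all sufficiently large `f`. -/
def pStabilization (p : ℕ) {R : Type} [CommRing R] (b : ℕ → Ideal R) (e : ℕ) : Set R :=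
  {r | ∀ᶠ f in atTop, r ^ (p ^ f) ∈ b (e + f)}

/-- `𝔟_•` is `p`-stable. -/
def IsPStable (p : ℕ) {R : Type} [CommRing R] (b : ℕ → Ideal R) : Prop :=
  ∀ e, pStabilization p b e = (b e : Set R)

/-- Property (S): there are `d ≥ 1` and a surjective `φ ∈ Hom_R(F^d_* R, R)` with
`φ(F^d_* 𝔟_{e+d}) ⊆ 𝔟_e` for all `e`. -/
def PropertyS (p : ℕ) {R : Type} [CommRing R] (b : ℕ → Ideal R) : Prop :=
  ∃ d : ℕ, 1 ≤ d ∧ ∃ φ : R →+ R, IsCartierMap p d φ ∧ Function.Surjective φ ∧
    ∀ e, ∀ x ∈ b (e + d), φ x ∈ b e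

section proj

variable (p : ℕ) [hp : Fact p.Prime]

/-- the map `∑ f_n x^n ↦ ∑ f_{q m + a} x^m` -/
noncomputable def proj (q : ℕ) (hq : 0 < q) (a : Fin 2 →₀ ℕ) :
    MvPolynomial (Fin 2) (ZMod p) →+ MvPolynomial (Fin 2) (ZMod p) where
  toFun f := AddMonoidAlgebra.ofCoeff
    (Finsupp.comapDomain (fun m : Fin 2 →₀ ℕ => q • m + a) (AddMonoidAlgebra.coeff f) (by
      intro m _ n _ h
      have h' : q • m = q • n := add_right_cancel h
      ext i
      have := DFunLike.congr_fun h' i
      simpa [hq.ne'] using this))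
  map_zero' := by
    ext m
    rfl
  map_add' f g := by
    ext m
    rfl

lemma coeff_proj (q : ℕ) (hq : 0 < q) (a : Fin 2 →₀ ℕ) (f : MvPolynomial (Fin 2) (ZMod p))
    (m : Fin 2 →₀ ℕ) : coeff m (proj p q hq a f) = coeff (q • m + a) f := rfl

lemma proj_cartier (e : ℕ) (a : Fin 2 →₀ ℕ) (ha : ∀ i, a i < p ^ e) :
    IsCartierMap p e (proj p (p ^ e) (pow_pos hp.out.pos e) a) := by
  intro r s
  induction r using MvPolynomial.induction_on' with
  | monomial n c =>
    ext m
    rw [coeff_proj, monomial_pow, ZMod.pow_card_pow, coeff_monomial_mul', coeff_monomial_mul']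
    have h : (p ^ e) • n ≤ (p ^ e) • m + a ↔ n ≤ m := by
      simp only [Finsupp.le_def, Finsupp.add_apply, Finsupp.smul_apply, smul_eq_mul]
      refine forall_congr' fun i => ?_
      have hi := ha i
      constructor
      · intro h
        by_contra hcon
        have : m i + 1 ≤ n i := by omega
        have := Nat.mul_le_mul_left (p ^ e) this
        rw [Nat.mul_add, mul_one] at this
        omega
      · intro h
        have := Nat.mul_le_mul_left (p ^ e) h
        omega
    by_cases hn : n ≤ m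
    · rw [if_pos hn, if_pos (h.mpr hn), coeff_proj]
      congr 2
      ext i
      have h1 := hn i
      have h2 := (h.mpr hn) i
      simp only [Finsupp.add_apply, Finsupp.smul_apply, smul_eq_mul, Finsupp.tsub_apply,
        Nat.mul_sub] at h2 ⊢
      have := Nat.mul_le_mul_left (p ^ e) h1
      omega
    · rw [if_neg hn, if_neg (fun h' => hn (h.mp h'))]
  | add f g hf hg =>
    rw [add_pow_char_pow, add_mul, map_add, hf, hg, add_mul]

lemma stronglyFRegular : StronglyFRegular p (MvPolynomial (Fin 2) (ZMod p)) := by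
  intro c hc
  rw [IsDomain.minimalPrimes_eq_singleton_bot] at hc
  have hc0 : c ≠ 0 := fun h => hc ⊥ rfl (by rw [h]; exact Ideal.zero_mem _)
  obtain ⟨a, ha⟩ := MvPolynomial.support_nonempty.mpr hc0
  have haγ := mem_support_iff.mp ha
  set e := c.totalDegree + 1 with he
  have hlt : ∀ n ∈ c.support, ∀ i, n i < p ^ e := by
    intro n hn i
    have h1 := le_totalDegree hn
    have h2 : n i ≤ n.sum fun _ k => k := by
      by_cases hi : i ∈ n.support
      · exact Finset.single_le_sum (f := fun i => n i) (fun _ _ => Nat.zero_le _) hi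
      · rw [Finsupp.notMem_support_iff.mp hi]
        exact Nat.zero_le _
    have h3 : e < p ^ e := Nat.lt_pow_self hp.out.one_lt
    omega
  refine ⟨e, by omega, (AddMonoidHom.mulLeft (C (coeff a c)⁻¹)).comp
    (proj p (p ^ e) (pow_pos hp.out.pos e) a), ?_, ?_⟩
  · intro r s
    rw [AddMonoidHom.comp_apply, AddMonoidHom.comp_apply, proj_cartier p e a (hlt a ha) r s]
    simp only [AddMonoidHom.coe_mulLeft]
    ring
  · rw [AddMonoidHom.comp_apply, AddMonoidHom.coe_mulLeft]
    ext m
    rw [coeff_C_mul, coeff_proj, coeff_one]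
    split_ifs with hm
    · rw [← hm, smul_zero, zero_add, inv_mul_cancel₀ haγ]
    · have : coeff ((p ^ e) • m + a) c = 0 := by
        by_contra hne
        obtain ⟨i, hi⟩ : ∃ i, m i ≠ 0 := by
          by_contra hcon
          push Not at hcon
          exact hm (by ext i; exact (hcon i).symm)
        have h4 := hlt _ (mem_support_iff.mpr hne) i
        simp only [Finsupp.add_apply, Finsupp.smul_apply, smul_eq_mul] at h4
        have : p ^ e * 1 ≤ p ^ e * m i := Nat.mul_le_mul_left _ (Nat.one_le_iff_ne_zero.mpr hi)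
        omega
      rw [this, mul_zero]

lemma fFinite : FFinite p (MvPolynomial (Fin 2) (ZMod p)) := by
  unfold FFinite
  have hint : (frobenius (MvPolynomial (Fin 2) (ZMod p)) p).IsIntegral := by
    intro r
    refine ⟨Polynomial.X ^ p - Polynomial.C r, Polynomial.monic_X_pow_sub_C r hp.out.ne_zero, ?_⟩
    rw [Polynomial.eval₂_sub, Polynomial.eval₂_X_pow, Polynomial.eval₂_C, frobenius_def, sub_self]
  have hft : (frobenius (MvPolynomial (Fin 2) (ZMod p)) p).FiniteType := by
    have h1 : ((frobenius (MvPolynomial (Fin 2) (ZMod p)) p).comp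
        (algebraMap (ZMod p) (MvPolynomial (Fin 2) (ZMod p)))).FiniteType := by
      have h2 : (frobenius (MvPolynomial (Fin 2) (ZMod p)) p).comp
          (algebraMap (ZMod p) (MvPolynomial (Fin 2) (ZMod p))) =
          algebraMap (ZMod p) (MvPolynomial (Fin 2) (ZMod p)) := RingHom.ext_zmod _ _
      rw [h2, RingHom.finiteType_algebraMap]
      infer_instance
    exact RingHom.FiniteType.of_comp_finiteType h1
  exact hint.to_finite hft

/-- the parametrization of the cuspidal curve, `x ↦ t²`, `y ↦ t³` -/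
noncomputable def cusp : MvPolynomial (Fin 2) (ZMod p) →ₐ[ZMod p] Polynomial (ZMod p) :=
  aeval ![Polynomial.X ^ 2, Polynomial.X ^ 3]

lemma coeff_one_cusp (f : MvPolynomial (Fin 2) (ZMod p)) : (cusp p f).coeff 1 = 0 := by
  induction f using MvPolynomial.induction_on' with
  | monomial n c =>
    rw [cusp, aeval_monomial, Finsupp.prod_fintype _ _ (by simp)]
    simp only [Fin.prod_univ_two, Matrix.cons_val_zero, Matrix.cons_val_one, ← pow_mul, ← pow_add,
      Polynomial.algebraMap_eq, Polynomial.coeff_C_mul, Polynomial.coeff_X_pow]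
    rw [if_neg (by omega), mul_zero]
  | add f g hf hg => rw [map_add, Polynomial.coeff_add, hf, hg, add_zero]

lemma cusp_X0 : cusp p (X 0) = Polynomial.X ^ 2 := by simp [cusp]

lemma cusp_X1 : cusp p (X 1) = Polynomial.X ^ 3 := by simp [cusp]

/-- for `q ≥ 2` the monomial `t^q` lies in the image -/
lemma exists_pow (q : ℕ) (hq : 2 ≤ q) : ∃ h, cusp p h = Polynomial.X ^ q := by
  rcases Nat.even_or_odd q with ⟨k, hk⟩ | ⟨k, hk⟩
  · refine ⟨X 0 ^ k, ?_⟩
    rw [map_pow, cusp_X0, ← pow_mul]
    congr 1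
    omega
  · refine ⟨X 0 ^ (k - 1) * X 1, ?_⟩
    rw [map_mul, map_pow, cusp_X0, cusp_X1, ← pow_mul, ← pow_add]
    congr 1
    omega

lemma not_propertyS : ¬ PropertyS p (fun _ => RingHom.ker (cusp p)) := by
  rintro ⟨d, hd, φ, hφ, hsurj, hb⟩
  obtain ⟨s, hs⟩ := hsurj 1
  have hq : 2 ≤ p ^ d := by
    calc 2 ≤ p := hp.out.two_le
      _ = p ^ 1 := (pow_one p).symm
      _ ≤ p ^ d := Nat.pow_le_pow_right hp.out.pos hd
  obtain ⟨h, hh⟩ := exists_pow p (p ^ d) hq
  -- `x^q h ≡ y^q` on the curve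
  have h1 : X 0 ^ (p ^ d) * h - X 1 ^ (p ^ d) ∈ RingHom.ker (cusp p) := by
    rw [RingHom.mem_ker]
    change cusp p _ = 0
    rw [map_sub, map_mul, map_pow, map_pow, hh, cusp_X0, cusp_X1]
    ring
  have h2 : φ ((X 0 ^ (p ^ d) * h - X 1 ^ (p ^ d)) * s) ∈ RingHom.ker (cusp p) :=
    hb 0 _ (Ideal.mul_mem_right _ _ h1)
  have h3 : φ ((X 0 ^ (p ^ d) * h - X 1 ^ (p ^ d)) * s) = X 0 * φ (h * s) - X 1 := by
    have h4 := hφ (X 0) (h * s)
    have h5 := hφ (X 1) s
    rw [sub_mul, map_sub, mul_assoc, h4, h5, hs, mul_one]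
  rw [h3, RingHom.mem_ker] at h2
  change cusp p _ = 0 at h2
  rw [map_sub, map_mul, cusp_X0, cusp_X1, sub_eq_zero] at h2
  have h6 := congrArg (fun f => Polynomial.coeff f 3) h2
  rw [show (3 : ℕ) = 1 + 2 from rfl, Polynomial.coeff_X_pow_mul, coeff_one_cusp,
    Polynomial.coeff_X_pow_self] at h6
  exact zero_ne_one h6

end proj

/-- For every prime `p` there are a strongly `F`-regular (Noetherian, `F`-finite) ring `R` of
characteristic `p` and a `p`-stable `p`-family in `R` which does not have property (S). -/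
theorem result (p : ℕ) [Fact p.Prime] :
    ∃ (R : Type) (_ : CommRing R) (_ : CharP R p), IsNoetherianRing R ∧ FFinite p R ∧
      StronglyFRegular p R ∧ ∃ b : ℕ → Ideal R, IsPFamily p b ∧ IsPStable p b ∧
        ¬ PropertyS p b := by
  refine ⟨MvPolynomial (Fin 2) (ZMod p), inferInstance, inferInstance, inferInstance, fFinite p,
    stronglyFRegular p, fun _ => RingHom.ker (cusp p), ?_, ?_, not_propertyS p⟩
  · intro e
    rw [Ideal.span_le]
    rintro _ ⟨g, hg, rfl⟩
    exact Ideal.pow_mem_of_mem _ hg p (Nat.Prime.pos Fact.out)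
  · intro e
    ext r
    rw [pStabilization, Set.mem_ofPred_eq, SetLike.mem_coe]
    constructor
    · intro h
      obtain ⟨f, hf⟩ := h.exists
      exact (RingHom.ker_isPrime (cusp p)).mem_of_pow_mem _ hf
    · intro h
      exact Eventually.of_forall fun f => Ideal.pow_mem_of_mem _ h _
        (pow_pos (Nat.Prime.pos Fact.out) f)

end Pool.Agent.Results.MP_30687b_ag.ConstantCuspFamily
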